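import Pool.Agent.Helper22.G4.Real
import Pool.Agent.Helper22.G4.St.C0
import Pool.Agent.Helper22.G4.St.R7

/-! # G4-R8: the book polytope is described by its inequalities -/

namespace Pool.Agent.Helper33.G4

open Submodule
open Pool.Agent.Helper22.G4

theorem lin_apply (a b c d e : ℝ) (x : E5) :
    lin a b c d e x = a * x 0 + b * x 1 + c * x 2 + d * x 3 + e * x 4 := by
  simp [lin]

theorem vec_eta (x : E5) : vec (x 0) (x 1) (x 2) (x 3) (x 4) = x := by
  funext i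
  fin_cases i <;> rfl

/-- choice of the page interval -/
theorem exists_page {M : ℕ} (hM : 2 ≤ M) {Y Z : ℝ} (h1 : Y ≤ Z) (h2 : Z ≤ M * Y) :
    ∃ a : ℕ, 1 ≤ a ∧ a + 1 ≤ M ∧ a * Y ≤ Z ∧ Z ≤ (a + 1) * Y := by
  have hM' : (2 : ℝ) ≤ M := by exact_mod_cast hM
  have hY : 0 ≤ Y := by
    by_contra hneg
    push Not at hneg
    nlinarith
  rcases hY.eq_or_lt with h0 | hpos
  · subst h0
    refine ⟨1, le_rfl, hM, ?_, ?_⟩
    · simpa using h1
    · have : Z ≤ 0 := by simpa using h2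
      simpa using this
  · -- induction on the page number
    have key : ∀ k : ℕ, 1 ≤ k → k + 1 ≤ M → Z ≤ (k + 1) * Y →
        ∃ a : ℕ, 1 ≤ a ∧ a + 1 ≤ M ∧ a * Y ≤ Z ∧ Z ≤ (a + 1) * Y := by
      intro k hk
      induction k, hk using Nat.le_induction with
      | base =>
        intro hkM hZ
        exact ⟨1, le_rfl, hkM, by simpa using h1, hZ⟩
      | succ k hk ih =>
        intro hkM hZ
        by_cases hc : ((k + 1 : ℕ) : ℝ) * Y ≤ Z
        · exact ⟨k + 1, by omega, hkM, hc, hZ⟩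
        · push Not at hc
          refine ih (by omega) ?_
          push_cast at hc
          exact hc.le
    refine key (M - 1) (by omega) (by omega) ?_
    have : ((M - 1 : ℕ) : ℝ) + 1 = M := by
      have h3 : (M - 1) + 1 = M := by omega
      exact_mod_cast h3
    rw [this]
    exact h2

/-- G4-R8 (the book polytope is described by its inequalities). -/
theorem book_compl {I : NF} (hI : I.OK) (G : Geo I) (h m : ℝ) (x : E5)
    (hF : ∀ a s, 1 ≤ a → a + 1 ≤ I.M → s ≤ I.N → 0 ≤ G.fF s a x)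
    (hQ : ∀ a < I.M, 0 ≤ fQ a (a + 1) x) (hQM : 0 ≤ fQ I.M 0 x) :
    InCone (G.c h m) I.data.verts.toFinset x := by
  have hM4 : 4 ≤ I.M := (NF.size hI).1
  have hQ' : ∀ a : ℕ, a < I.M → 0 ≤ (a * (a + 1) : ℝ) * x 2 - (2 * a + 1) * x 3 + x 4 := by
    intro a ha
    have h1 := hQ a ha
    rw [fQ, if_neg (Nat.succ_ne_zero a), lin_apply] at h1
    push_cast at h1
    linarith
  have h01 : x 3 ≤ x 4 := by
    have h1 := hQ' 0 (by omega)
    simp only [Nat.cast_zero] at h1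
    linarith
  have hM0 : x 4 ≤ I.M * x 3 := by
    rw [fQ, if_pos rfl, lin_apply] at hQM
    linarith
  obtain ⟨a, ha1, haM, h1, h2⟩ := exists_page (by omega : 2 ≤ I.M) h01 hM0
  have hapos : (0 : ℝ) < a := by exact_mod_cast (show 0 < a by omega)
  have ha1pos : (0 : ℝ) < (a : ℝ) + 1 := by linarith
  have hane : (a : ℝ) ≠ 0 := hapos.ne'
  have ha1ne : (a : ℝ) + 1 ≠ 0 := ha1pos.ne'
  have e0 : b0 (a : ℝ) ((a : ℝ) + 1) x =
      ((a * (a + 1) : ℝ) * x 2 - (2 * a + 1) * x 3 + x 4) / (a * (a + 1)) := by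
    rw [b0, lin_apply]
    field_simp
    ring
  have e1 : bX (a : ℝ) ((a : ℝ) + 1) x = ((a + 1) * x 3 - x 4) / a := by
    rw [bX, lin_apply]
    have : (a : ℝ) + 1 - a = 1 := by ring
    rw [this]
    field_simp
    ring
  have e2 : bX ((a : ℝ) + 1) (a : ℝ) x = (x 4 - a * x 3) / (a + 1) := by
    rw [bX, lin_apply]
    have : (a : ℝ) - (a + 1) = -1 := by ring
    rw [this]
    field_simp
    ring
  have t0 : 0 ≤ b0 (a : ℝ) ((a : ℝ) + 1) x := by
    rw [e0]
    exact div_nonneg (hQ' a (by omega)) (by positivity)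
  have t1 : 0 ≤ bX (a : ℝ) ((a : ℝ) + 1) x := by
    rw [e1]
    exact div_nonneg (by linarith) hapos.le
  have t2 : 0 ≤ bX ((a : ℝ) + 1) (a : ℝ) x := by
    rw [e2]
    exact div_nonneg (by linarith) ha1pos.le
  have hc := chain hI G h m (a₁ := 0) (a₂ := a) (a₃ := a + 1) (by omega) (by omega) (by omega)
    (x := x 0) (y := x 1) t0 t1 t2 (by
      intro s hs
      have h3 := hF a s ha1 haM hs
      simp only [Geo.fF, LinearMap.sub_apply, LinearMap.smul_apply, smul_eq_mul, lin_apply] at h3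
      linarith)
  have s1 : b0 (a : ℝ) ((a : ℝ) + 1) x + bX (a : ℝ) ((a : ℝ) + 1) x +
      bX ((a : ℝ) + 1) (a : ℝ) x = x 2 := by
    rw [e0, e1, e2]
    field_simp
    ring
  have s2 : b0 (a : ℝ) ((a : ℝ) + 1) x * ((0 : ℕ) : ℝ) + bX (a : ℝ) ((a : ℝ) + 1) x * a +
      bX ((a : ℝ) + 1) (a : ℝ) x * ((a + 1 : ℕ) : ℝ) = x 3 := by
    rw [e0, e1, e2]
    push_cast
    field_simp
    ring
  have s3 : b0 (a : ℝ) ((a : ℝ) + 1) x * ((0 : ℕ) : ℝ) ^ 2 +
      bX (a : ℝ) ((a : ℝ) + 1) x * (a : ℝ) ^ 2 +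
      bX ((a : ℝ) + 1) (a : ℝ) x * ((a + 1 : ℕ) : ℝ) ^ 2 = x 4 := by
    rw [e0, e1, e2]
    push_cast
    field_simp
    ring
  rw [s1, s2, s3, vec_eta] at hc
  exact hc

end Pool.Agent.Helper33.G4
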